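import Pool.Agent.Lib.MP_4952d6_mp.Pq.P20
import Pool.Agent.Lib.MP_4952d6_mp.Pr.R42
import Pool.Agent.Lib.MP_4952d6_mp.Pr.R43

/-!
# The Lee-Huang-Yang law for the condensate fraction of the dilute Bose gas with a gap

A gap `g` is added for each particle outside of the condensate: `H + g ∑ᵢ (1 - Pᵢ)`. In the thermodynamic limit, for every radial nonnegative
integrable pair potential of finite range and every hard core radius, the energy and the condensate fraction of the ground states are those of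
Bogoliubov's theory, for all `g = s ρ a / (2 m)`, and the depletion is `8 / (3 √π) √(ρ a³)` if `g / (ρ a / m)` tends to zero slowly.
For this law a gap is needed only for the small momenta: `H + g ∑ᵢ θ(|pᵢ| / √(ρ a))` (without the momentum zero) with any nonincreasing `θ`,
`0 ≤ θ ≤ 1`, which is `1` on `(0, δ]`: the error is `(ε₁ / s + ε / δ²) √(ρ a³)` for `g = s ρ a / (2 m)`, so `s` and `δ` may tend to zero slowly.
The last part is the optimal relation between the energy and the condensate fraction of arbitrary states.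
-/

set_option autoImplicit false
open MeasureTheory Filter Topology
open scoped ENNReal

namespace Pool.Agent.Results.MP_4952d6_mp.CondensateLaw

open Pool.Agent.Lib.MP_4952d6_mp

/-- Energy with a gap `g` for each particle outside of the condensate. -/
noncomputable def gapEnergy (m g : ℝ) (v : (Fin 3 → ℝ) → ℝ) (N : ℕ) (L : ℝ)
    (ψ : (Fin N → Fin 3 → ℝ) → ℂ) : ℝ≥0∞ :=
  energy m v N L ψ + ENNReal.ofReal (g * (N * (1 - condFraction N L ψ)))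

/-- `ψ` is a ground state of the gas with gap `g`: an admissible state which minimises `gapEnergy`. -/
def IsGround (m R₀ g : ℝ) (v : (Fin 3 → ℝ) → ℝ) (N : ℕ) (L : ℝ) (ψ : (Fin N → Fin 3 → ℝ) → ℂ) : Prop :=
  Admissible m R₀ v N L ψ ∧ ∀ φ : (Fin N → Fin 3 → ℝ) → ℂ, Admissible m R₀ v N L φ →
    gapEnergy m g v N L ψ ≤ gapEnergy m g v N L φ

/-- `(1/N) ∑ᵢ ⟨ψ, θ(|pᵢ| / κ) 1(pᵢ ≠ 0) ψ⟩`, where particle `i` has the momentum `pᵢ = 2πkᵢ/L` in the plane wave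
`L^{-3N/2} exp (2πi k·x / L)`, `k ∈ (ℤ³)^N`. -/
noncomputable def irFraction (N : ℕ) (L κ : ℝ) (θ : ℝ → ℝ) (ψ : (Fin N → Fin 3 → ℝ) → ℂ) : ℝ :=
  (1 / (N : ℝ)) * ∑ i : Fin N, ∑' k : Fin N → Fin 3 → ℤ,
    (if k i = 0 then 0
      else θ (2 * Real.pi / L * Real.sqrt (∑ α, (k i α : ℝ) ^ 2) / κ) * ‖fourierC N L ψ k‖ ^ 2)

/-- Energy with the gap `g θ(|p| / κ)` for the momenta `p ≠ 0`. -/
noncomputable def irEnergy (m g κ : ℝ) (θ : ℝ → ℝ) (v : (Fin 3 → ℝ) → ℝ) (N : ℕ) (L : ℝ)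
    (ψ : (Fin N → Fin 3 → ℝ) → ℂ) : ℝ≥0∞ :=
  energy m v N L ψ + ENNReal.ofReal (g * (N * irFraction N L κ θ ψ))

/-- `ψ` minimises `irEnergy` among the admissible states. -/
def IsIrGround (m R₀ g κ : ℝ) (θ : ℝ → ℝ) (v : (Fin 3 → ℝ) → ℝ) (N : ℕ) (L : ℝ)
    (ψ : (Fin N → Fin 3 → ℝ) → ℂ) : Prop :=
  Admissible m R₀ v N L ψ ∧ ∀ φ : (Fin N → Fin 3 → ℝ) → ℂ, Admissible m R₀ v N L φ →
    irEnergy m g κ θ v N L ψ ≤ irEnergy m g κ θ v N L φ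

/-- For all small densities `ρ` and then for all large numbers `N` of particles. -/
def Dilute (P : ℝ → ℕ → Prop) : Prop :=
  ∃ ρ₁ : ℝ, 0 < ρ₁ ∧ ∀ ρ : ℝ, 0 < ρ → ρ < ρ₁ → ∃ N₁ : ℕ, ∀ N : ℕ, N₁ ≤ N → P ρ N

/-- Bogoliubov's depletion with a gap. -/
noncomputable def depletion (s : ℝ) : ℝ :=
  1 / (4 * Real.pi ^ 2) * ∫ r in Set.Ioi (0:ℝ), r ^ 2 * ((r ^ 2 + s + 8 * Real.pi)
    / Real.sqrt ((r ^ 2 + s) ^ 2 + 16 * Real.pi * (r ^ 2 + s)) - 1)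

/-- Bogoliubov's energy with a gap. -/
noncomputable def correction (s : ℝ) : ℝ :=
  1 / (16 * Real.pi ^ 3) * ∫ r in Set.Ioi (0:ℝ), r ^ 2 *
    (Real.sqrt ((r ^ 2 + s) ^ 2 + 16 * Real.pi * (r ^ 2 + s)) - (r ^ 2 + s) - 8 * Real.pi
      + 32 * Real.pi ^ 2 / r ^ 2)

/-- **The condensate fraction of the dilute Bose gas with a gap**, in the thermodynamic limit. -/
theorem result (m R₀ R : ℝ) (v : (Fin 3 → ℝ) → ℝ) (hm : 0 < m) (hR₀ : 0 ≤ R₀) (hv : Integrable v)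
    (hv0 : ∀ x, 0 ≤ v x)
    (hrad : ∀ x y : Fin 3 → ℝ, ∑ α, x α ^ 2 = ∑ α, y α ^ 2 → v x = v y)
    (hsupp : ∀ x : Fin 3 → ℝ, R ^ 2 ≤ ∑ α, x α ^ 2 → v x = 0)
    (hgen : 0 < R₀ ∨ ¬ (v =ᵐ[volume] 0)) (a : ℝ) (ha : a = scatLen m R₀ v) :
    0 < a ∧ depletion 0 = 8 / (3 * Real.sqrt Real.pi) ∧ ContinuousOn depletion (Set.Ici 0) ∧
    correction 0 = 128 / (15 * Real.sqrt Real.pi) ∧
    (∃ γ : ℝ → ℝ, (∀ ρ, 0 < γ ρ) ∧ Tendsto γ (𝓝[>] 0) (𝓝 0) ∧ ∀ ε : ℝ, 0 < ε → Dilute fun ρ N =>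
      (∀ ψ, IsGround m R₀ (γ ρ * (ρ * a / (2 * m))) v N (side ρ N) ψ →
        |1 - condFraction N (side ρ N) ψ - 8 / (3 * Real.sqrt Real.pi) * Real.sqrt (ρ * a ^ 3)|
          ≤ ε * Real.sqrt (ρ * a ^ 3)) ∧
      ∀ s : ℝ, γ ρ ≤ s → s ≤ 1 / 2 → ∀ ψ,
        IsGround m R₀ (s * (ρ * a / (2 * m))) v N (side ρ N) ψ →
        |1 - condFraction N (side ρ N) ψ - depletion s * Real.sqrt (ρ * a ^ 3)|
          ≤ ε * Real.sqrt (ρ * a ^ 3)) ∧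
    -- a gap for the small momenta is enough
    (∃ γ : ℝ → ℝ, (∀ ρ, 0 < γ ρ) ∧ Tendsto γ (𝓝[>] 0) (𝓝 0) ∧ ∀ ε : ℝ, 0 < ε → Dilute fun ρ N =>
      ∀ δ : ℝ, 0 < δ → ∀ θ : ℝ → ℝ, AntitoneOn θ (Set.Ioi 0) → (∀ t, 0 ≤ θ t) → (∀ t, θ t ≤ 1) →
      (∀ t, 0 < t → t ≤ δ → θ t = 1) →
      (∃ ψ, IsIrGround m R₀ (γ ρ * (ρ * a / (2 * m))) (Real.sqrt (ρ * a)) θ v N (side ρ N) ψ) ∧
      ∀ ψ, IsIrGround m R₀ (γ ρ * (ρ * a / (2 * m))) (Real.sqrt (ρ * a)) θ v N (side ρ N) ψ →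
        (8 / (3 * Real.sqrt Real.pi) - ε) * Real.sqrt (ρ * a ^ 3) ≤ 1 - condFraction N (side ρ N) ψ ∧
        1 - condFraction N (side ρ N) ψ
          ≤ (8 / (3 * Real.sqrt Real.pi) + ε * (1 + 1 / δ ^ 2)) * Real.sqrt (ρ * a ^ 3)) ∧
    (∀ ε : ℝ, 0 < ε → ∃ s₁ : ℝ, 0 < s₁ ∧ ∀ ε₁ : ℝ, 0 < ε₁ → Dilute fun ρ N =>
      ∀ s : ℝ, 0 < s → s ≤ s₁ →
      ∀ δ : ℝ, 0 < δ → ∀ θ : ℝ → ℝ, AntitoneOn θ (Set.Ioi 0) → (∀ t, 0 ≤ θ t) → (∀ t, θ t ≤ 1) →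
      (∀ t, 0 < t → t ≤ δ → θ t = 1) →
      (∃ ψ, IsIrGround m R₀ (s * (ρ * a / (2 * m))) (Real.sqrt (ρ * a)) θ v N (side ρ N) ψ) ∧
      ∀ ψ, IsIrGround m R₀ (s * (ρ * a / (2 * m))) (Real.sqrt (ρ * a)) θ v N (side ρ N) ψ →
        (8 / (3 * Real.sqrt Real.pi) - ε) * Real.sqrt (ρ * a ^ 3) ≤ 1 - condFraction N (side ρ N) ψ ∧
        1 - condFraction N (side ρ N) ψ
          ≤ (8 / (3 * Real.sqrt Real.pi) + ε * (1 + 1 / δ ^ 2) + ε₁ / s)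
            * Real.sqrt (ρ * a ^ 3)) ∧
    (∀ ε : ℝ, 0 < ε → Dilute fun ρ N => ∀ s : ℝ, 0 ≤ s → s ≤ 1 / 2 →
      (∃ ψ, IsGround m R₀ (s * (ρ * a / (2 * m))) v N (side ρ N) ψ) ∧
      ∀ ψ, IsGround m R₀ (s * (ρ * a / (2 * m))) v N (side ρ N) ψ →
        |(gapEnergy m (s * (ρ * a / (2 * m))) v N (side ρ N) ψ).toReal / N
            - 2 * Real.pi * ρ * a / m * (1 + correction s * Real.sqrt (ρ * a ^ 3))|
          ≤ ε * (2 * Real.pi * ρ * a / m * Real.sqrt (ρ * a ^ 3))) ∧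
    (∀ ε : ℝ, 0 < ε → Dilute fun ρ N => ∀ g : ℝ, 0 < g →
      (∃ ψ, IsGround m R₀ g v N (side ρ N) ψ) ∧
      ∀ ψ, IsGround m R₀ g v N (side ρ N) ψ → 1 - condFraction N (side ρ N) ψ
        ≤ (8 / (3 * Real.sqrt Real.pi) + ε * (1 + ρ * a / (m * g))) * Real.sqrt (ρ * a ^ 3)) ∧
    ∀ s ε : ℝ, 0 ≤ s → s ≤ 1 / 2 → 0 < ε →
      (∃ η : ℝ, 0 < η ∧ Dilute fun ρ N => ∀ ψ, Admissible m R₀ v N (side ρ N) ψ →
        energy m v N (side ρ N) ψ ≤ ENNReal.ofReal (N * (2 * Real.pi * ρ * a / m *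
          (1 + (correction s - s * depletion s / (4 * Real.pi) + η) * Real.sqrt (ρ * a ^ 3)))) →
        (depletion s - ε) * Real.sqrt (ρ * a ^ 3) ≤ 1 - condFraction N (side ρ N) ψ) ∧
      Dilute fun ρ N => ∃ ψ, Admissible m R₀ v N (side ρ N) ψ ∧
        energy m v N (side ρ N) ψ ≤ ENNReal.ofReal (N * (2 * Real.pi * ρ * a / m *
          (1 + (correction s - s * depletion s / (4 * Real.pi) + ε) * Real.sqrt (ρ * a ^ 3)))) ∧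
        1 - condFraction N (side ρ N) ψ ≤ (depletion s + ε) * Real.sqrt (ρ * a ^ 3) := by
  have hgen' : 0 < R₀ ∨ 0 < ∫ x, v x := by
    rcases hgen with h | h
    · exact Or.inl h
    · right
      have h1 : 0 ≤ ∫ x, v x := integral_nonneg hv0
      refine lt_of_le_of_ne h1 fun h2 => h ?_
      exact (integral_eq_zero_iff_of_nonneg hv0 hv).1 h2.symm
  obtain ⟨h1, h2, h3, h5, h6, h7⟩ := LG.gap_full hm hR₀ hv hv0 hrad hsupp hgen' ha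
  obtain ⟨R', hR, hsupp'⟩ : ∃ R' : ℝ, R₀ < R' ∧ ∀ x : Fin 3 → ℝ, R' ^ 2 ≤ ∑ α, x α ^ 2 → v x = 0 :=
    ⟨|R| + R₀ + 1, by linarith [abs_nonneg R], fun x hx => hsupp x (le_trans (by
      rw [← sq_abs R]
      exact pow_le_pow_left₀ (abs_nonneg R) (by linarith) 2) hx)⟩
  have hP : LG.Phys m R₀ R' v := ⟨hm, hR₀, hR, hv, hv0, hrad, hsupp', hgen'⟩
  have hc : ∀ s, correction s = Jf s / (4 * Real.pi) := by
    intro s
    have hp : Real.pi ≠ 0 := Real.pi_ne_zero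
    unfold correction Jf jInt
    rw [mul_div_right_comm]
    congr 1
    field_simp
    norm_num
  have hsp : 0 < Real.sqrt Real.pi := Real.sqrt_pos.2 Real.pi_pos
  have hd : ∀ s, depletion s = Dg s := fun s => rfl
  have he : ∀ s, correction s - s * depletion s / (4 * Real.pi) = (Jf s - s * Dg s) / (4 * Real.pi) := by
    intro s
    rw [hc, hd]
    ring
  have hq : ∀ ρ : ℝ, 2 * Real.pi * ρ * a / m = 2 * Real.pi / m * ρ * a := fun ρ => by ring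
  refine ⟨h1, Dg_zero, Dg_continuousOn, ?_, ?_,
    LK.ir_diag2 fun ε hε => LK.ir_pt2 hP ha hε, fun ε hε => LK.ir_pt2 hP ha hε, ?_, h5, fun s ε hs hs1 hε => ⟨?_, ?_⟩⟩
  · rw [hc, Jf_zero_eq, ← O.FE2_c]
    field_simp
  · obtain ⟨γ, hγ0, hγ, h8⟩ := h3
    exact ⟨γ, hγ0, hγ, fun ε hε => (h8 ε hε).mono fun ρ N hρ h => ⟨h.2, h.1⟩⟩
  · intro ε hε
    refine (h2 ε hε).mono fun ρ N hρ h s hs hs1 => ⟨(h s hs hs1).1, fun ψ hψ => ?_⟩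
    rw [hc]
    exact ((h s hs hs1).2 ψ hψ).2
  · obtain ⟨η, hη, h8⟩ := h6 s ε hs hs1 hε
    refine ⟨η, hη, h8.mono fun ρ N hρ h ψ hψ hE => h ψ hψ ?_⟩
    rw [he, hq] at hE
    exact hE
  · refine (h7 s ε hs hs1 hε).mono fun ρ N hρ h => ?_
    obtain ⟨ψ, hψ, hE, hcf⟩ := h
    refine ⟨ψ, hψ, ?_, hcf⟩
    rw [he, hq]
    exact hE

end Pool.Agent.Results.MP_4952d6_mp.CondensateLaw
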