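import Pool.Agent.Lib.MP_4952d6_mp.Pr.R32
import Pool.Agent.Lib.MP_4952d6_mp.Pr.R38
import Pool.Agent.Lib.MP_4952d6_mp.Pr.R39

/-!
# The Lee-Huang-Yang law above any infrared cutoff, for all states, in the thermodynamic limit

For every mass, every hard core radius `R₀ ≥ 0` and every radial nonnegative integrable pair potential `v`
which vanishes outside some ball (with a genuine interaction), with scattering length `a > 0`: for all `d₀, ε > 0` there is
a constant `M` such that for small `ρ` and `N ≥ N₁(ρ)` the following holds for every state, pure or mixed, in the periodic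
box of volume `N / ρ`. If its energy is at most `E₀ + x N (ρ a / m) √(ρ a³)`, `E₀` the ground state energy, `x ≥ 0`, then for
all `d ≥ d₀` the fraction of the particles with momentum at least `d √(ρ a)` is `F(d) √(ρ a³)` up to `(ε + M x) √(ρ a³)`, where

  `F(d) = (1/(4 π²)) ∫_{r > d} r² ((r² + 8π)/√(r⁴ + 16 π r²) - 1) dr = (d³ + (8π - d²) √(d² + 16π)) / (12 π²)`

is the prediction of Bogoliubov theory; `F(0) = 8 / (3 √π)` is the constant of Lee, Huang and Yang. Hence the fraction of the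
particles outside of the condensate is at least `(8 / (3 √π) - ε - M x) √(ρ a³)`. (Ground states: `x = 0`.)

Method (Griffiths' argument, for all states at once): upper bound for the ground state energy with the sharp second order
term, and lower bound, with the second order term of Bogoliubov theory, for the lowest energy of the Hamiltonian plus the
source `ρ a λ ∑ (1 - exp (- b p² / (ρ a)))`, `λ` of both signs. The source is a jump term (convolution with a heat kernel in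
the position of each particle), so that the minimisers with the source have local moment bounds; then exact elimination of
the high momenta, control of the density fluctuations at large scales by the interaction itself, and uncertainty relations
for windowed density operators, averaged over the windows. The second order term is differentiable in `λ` at `0`, and the
functions `1 - exp (- b x)`, `b = 1, 2, ..`, give all thresholds `d` by Weierstrass' theorem.
-/

set_option autoImplicit false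
open MeasureTheory
open scoped ENNReal

namespace Pool.Agent.Results.MP_4952d6_mp.InfraredLaw

open Pool.Agent.Lib.MP_4952d6_mp

/-- For all small densities `ρ` and then for all large numbers `N` of particles. -/
def Dilute (P : ℝ → ℕ → Prop) : Prop :=
  ∃ ρ₁ : ℝ, 0 < ρ₁ ∧ ∀ ρ : ℝ, 0 < ρ → ρ < ρ₁ → ∃ N₁ : ℕ, ∀ N : ℕ, N₁ ≤ N → P ρ N

/-- `ψ` is a ground state of `N` bosons in the box of side `L`: an admissible state of minimal energy. -/
def IsGround (m R₀ : ℝ) (v : (Fin 3 → ℝ) → ℝ) (N : ℕ) (L : ℝ) (ψ : (Fin N → Fin 3 → ℝ) → ℂ) : Prop :=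
  Admissible m R₀ v N L ψ ∧
    ∀ φ : (Fin N → Fin 3 → ℝ) → ℂ, Admissible m R₀ v N L φ → energy m v N L ψ ≤ energy m v N L φ

/-- The mixed state `∑ⱼ λⱼ |ψⱼ⟩⟨ψⱼ|` of `N` bosons in the box of side `L` has an energy of at most `E₀ + e`, where `E₀` is
the ground state energy. (Pure states: all `ψⱼ` equal; the ground states are those with `e = 0`.) -/
structure IsNear (m R₀ e : ℝ) (v : (Fin 3 → ℝ) → ℝ) (N : ℕ) (L : ℝ) (lam : ℕ → ℝ)
    (ψ : ℕ → (Fin N → Fin 3 → ℝ) → ℂ) : Prop where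
  nonneg : ∀ j, 0 ≤ lam j
  sum : HasSum lam 1
  adm : ∀ j, Admissible m R₀ v N L (ψ j)
  near : ∀ φ : (Fin N → Fin 3 → ℝ) → ℂ, Admissible m R₀ v N L φ →
    ∑' j, ENNReal.ofReal (lam j) * energy m v N L (ψ j) ≤ energy m v N L φ + ENNReal.ofReal e

/-- Fraction of the particles with momentum at least `κ`: `(1/N) ∑ᵢ ⟨ψ, 1(|pᵢ| ≥ κ) ψ⟩`, where particle `i` has the
momentum `pᵢ = 2πkᵢ/L` in the plane wave `L^{-3N/2} exp (2πi k·x / L)`, `k ∈ (ℤ³)^N`. -/
noncomputable def highFraction (N : ℕ) (L κ : ℝ) (ψ : (Fin N → Fin 3 → ℝ) → ℂ) : ℝ :=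
  (1 / (N : ℝ)) * ∑ i : Fin N, ∑' k : Fin N → Fin 3 → ℤ,
    (if κ ^ 2 ≤ (2 * Real.pi / L) ^ 2 * ∑ α, (k i α : ℝ) ^ 2 then ‖fourierC N L ψ k‖ ^ 2 else 0)

/-- **The Lee-Huang-Yang law above any infrared cutoff**, for all states, in the thermodynamic limit. -/
theorem result (m R₀ R : ℝ) (v : (Fin 3 → ℝ) → ℝ) (hm : 0 < m) (hR₀ : 0 ≤ R₀) (hv : Integrable v)
    (hv0 : ∀ x, 0 ≤ v x)
    (hrad : ∀ x y : Fin 3 → ℝ, ∑ α, x α ^ 2 = ∑ α, y α ^ 2 → v x = v y)
    (hsupp : ∀ x : Fin 3 → ℝ, R ^ 2 ≤ ∑ α, x α ^ 2 → v x = 0)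
    (hgen : 0 < R₀ ∨ ¬ (v =ᵐ[volume] 0)) (a : ℝ) (ha : a = scatLen m R₀ v) :
    0 < a ∧
    ∀ d₀ ε : ℝ, 0 < d₀ → 0 < ε → ∃ M : ℝ, 0 < M ∧ Dilute fun ρ N =>
      (∃ ψ : (Fin N → Fin 3 → ℝ) → ℂ, IsGround m R₀ v N (side ρ N) ψ) ∧
      ∀ x : ℝ, 0 ≤ x → ∀ (lam : ℕ → ℝ) (ψ : ℕ → (Fin N → Fin 3 → ℝ) → ℂ),
        IsNear m R₀ (x * (N * (ρ * a / m) * Real.sqrt (ρ * a ^ 3))) v N (side ρ N) lam ψ →
        -- the law for the momenta above `d √(ρ a)`, for all `d ≥ d₀`
        (∀ d : ℝ, d₀ ≤ d →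
          |∑' j, lam j * highFraction N (side ρ N) (d * Real.sqrt (ρ * a)) (ψ j)
            - (d ^ 3 + (8 * Real.pi - d ^ 2) * Real.sqrt (d ^ 2 + 16 * Real.pi))
              / (12 * Real.pi ^ 2) * Real.sqrt (ρ * a ^ 3)|
            ≤ (ε + M * x) * Real.sqrt (ρ * a ^ 3)) ∧
        -- hence a sharp lower bound for the depletion of the condensate
        (8 / (3 * Real.sqrt Real.pi) - (ε + M * x)) * Real.sqrt (ρ * a ^ 3)
          ≤ ∑' j, lam j * (1 - condFraction N (side ρ N) (ψ j)) := by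
  obtain ⟨R', hR, hsupp'⟩ : ∃ R' : ℝ, R₀ < R' ∧ ∀ x : Fin 3 → ℝ, R' ^ 2 ≤ ∑ α, x α ^ 2 → v x = 0 :=
    ⟨|R| + R₀ + 1, by linarith [abs_nonneg R], fun x hx => hsupp x (le_trans (by
      rw [← sq_abs R]
      exact pow_le_pow_left₀ (abs_nonneg R) (by linarith) 2) hx)⟩
  have hgen' : 0 < R₀ ∨ 0 < ∫ x, v x := by
    rcases hgen with h | h
    · exact Or.inl h
    · right
      have h1 : 0 ≤ ∫ x, v x := integral_nonneg hv0
      refine lt_of_le_of_ne h1 fun h2 => h ?_
      exact (integral_eq_zero_iff_of_nonneg hv0 hv).1 h2.symm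
  have hP : LG.Phys m R₀ R' v := ⟨hm, hR₀, hR, hv, hv0, hrad, hsupp', hgen'⟩
  have ha0 : 0 < a := by
    rw [ha]
    exact (O.F4_trunc hm hR₀ hR hv hv0 hrad hsupp' hgen').1
  refine ⟨ha0, fun d₀ ε hd hε => ?_⟩
  obtain ⟨M, hM, h1⟩ := LK.thr_full hP ha hd hε
  refine ⟨M, hM, (h1.and (LK.near_abs hP ha one_pos)).mono fun ρ N hρ h => ?_⟩
  obtain ⟨h2, hN, hL, ⟨φ₀, hφ₀⟩, -, -⟩ := h
  refine ⟨⟨φ₀, hφ₀.1, fun φ hφ => by simpa using hφ₀.2 φ hφ⟩, fun x hx lam ψ hψ => ?_⟩
  have hN0 : (0:ℝ) < N := by exact_mod_cast hN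
  have hZ : 0 < Real.sqrt (ρ * a ^ 3) := Real.sqrt_pos.2 (by positivity)
  have hc : 0 < N * (ρ * a / m) * Real.sqrt (ρ * a ^ 3) := by positivity
  refine ⟨fun d hdd => ?_, ?_⟩
  · exact LK.mix_abs (q := O.momFraction N (side ρ N) (d * Real.sqrt (ρ * a))) (B := 3) hc hZ.le hM.le
      hφ₀ (fun ψ h => LK.mom_bd hN hL h) (fun y hy ψ h => (h2 y hy ψ h).1 d hdd) hψ.nonneg hψ.sum
      hψ.adm hx (hψ.near φ₀ hφ₀.1)
  · have h3 := LK.mix_low (q := fun ψ => 1 - condFraction N (side ρ N) ψ) (B := 3)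
      (t := 8 / (3 * Real.sqrt Real.pi) * Real.sqrt (ρ * a ^ 3)) (ε := ε) hc hZ.le hM.le
      hφ₀ (fun ψ h => LK.cond_bd hN hL h) (fun y hy ψ h => by
        have h4 := (h2 y hy ψ h).2
        rw [sub_mul] at h4
        exact h4) hψ.nonneg hψ.sum hψ.adm hx (hψ.near φ₀ hφ₀.1)
    rw [sub_mul]
    exact h3

end Pool.Agent.Results.MP_4952d6_mp.InfraredLaw
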