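import Pool.Agent.Lib.MP_4952d6_mp.Pt.T06

/-!
# The Lee-Huang-Yang law for the local condensate fraction, in the thermodynamic limit

The local condensate fraction `cf_l` of a state is the average over all windows (cubes of side `l` of the torus) of the number of
particles in the constant state of the window, over the average number of particles in a window; for `l = L` it is the condensate
fraction. For every mass, every hard core radius `R₀ ≥ 0` and every radial nonnegative integrable pair potential `v` which vanishes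
outside some ball (with a genuine interaction), with scattering length `a > 0`, all ground states in the periodic box of volume
`N / ρ`, `ρ` small and `N ≥ N₁(ρ)`, obey the law of Lee, Huang and Yang in windows:

  `1 - cf_l = (8 / (3 √π)) √(ρ a³) (1 + o(1))`, `K = √(ρ a) l` large, `K ≤ κ(ρ)`, where `κ(ρ) → ∞` as `ρ → 0`,

and `≥` holds for all windows, up to the whole torus. More precisely, for every `ε > 0` there is a constant `M` such that for small
`ρ` and `N ≥ N₁(ρ)` every state, pure or mixed, of an energy of at most `E₀ + x N (ρ a / m) √(ρ a³)`, `E₀` the ground state energy,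
`x ≥ 0`, has

  `1 - cf_l = s(√(ρ a) l) √(ρ a³)` up to `(ε + M x) (1 + ρ a l²) √(ρ a³)`, for all `0 < l ≤ L`,

the prediction of Bogoliubov theory, and `1 - cf_l ≥ (s(√(ρ a) l) - ε - M x) √(ρ a³)`; `s(K) → 8 / (3 √π)` as `K → ∞`. The first of these
follows from a law for the one particle density matrix (over the density) `γ(y)`: for all `y ∈ ℝ³`

  `γ(y) = 1 - (8 / (3 √π) - 𝒞(√(ρ a) y)) √(ρ a³)` up to `(ε + M x) (1 + ρ a |y|²) √(ρ a³)`,

  `𝒞(η) = (1/(16 π³)) ∫_{ℝ³} ((k² + 8π)/√(k⁴ + 16 π k²) - 1) cos (k·η) dk`.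

Method (Griffiths' argument, for all states at once): the upper bound for the ground state energy with the sharp second order
term, and a lower bound, with the second order term of Bogoliubov theory, for the lowest energy of the Hamiltonian plus the
source `ρ a λ ∑ (1 - exp (- b p² / (ρ a)) cos (p·y))`, `λ` of both signs.
-/

set_option autoImplicit false
open MeasureTheory ComplexConjugate Filter Topology
open scoped ENNReal

namespace Pool.Agent.Results.MP_4952d6_mp.LocalCondensation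

open Pool.Agent.Lib.MP_4952d6_mp

/-- For all small densities `ρ` and then for all large numbers `N` of particles. -/
def Dilute (P : ℝ → ℕ → Prop) : Prop :=
  ∃ ρ₁ : ℝ, 0 < ρ₁ ∧ ∀ ρ : ℝ, 0 < ρ → ρ < ρ₁ → ∃ N₁ : ℕ, ∀ N : ℕ, N₁ ≤ N → P ρ N

/-- `ψ` is a ground state of `N` bosons in the box of side `L`: an admissible state of minimal energy. -/
def IsGround (m R₀ : ℝ) (v : (Fin 3 → ℝ) → ℝ) (N : ℕ) (L : ℝ) (ψ : (Fin N → Fin 3 → ℝ) → ℂ) : Prop :=
  Admissible m R₀ v N L ψ ∧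
    ∀ φ : (Fin N → Fin 3 → ℝ) → ℂ, Admissible m R₀ v N L φ → energy m v N L ψ ≤ energy m v N L φ

/-- The mixed state `∑ⱼ λⱼ |ψⱼ⟩⟨ψⱼ|` of `N` bosons in the box of side `L` has an energy of at most `E₀ + e`, where `E₀` is
the ground state energy. (Pure states: all `ψⱼ` equal; the ground states are those with `e = 0`.) -/
structure IsNear (m R₀ e : ℝ) (v : (Fin 3 → ℝ) → ℝ) (N : ℕ) (L : ℝ) (lam : ℕ → ℝ)
    (ψ : ℕ → (Fin N → Fin 3 → ℝ) → ℂ) : Prop where
  nonneg : ∀ j, 0 ≤ lam j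
  sum : HasSum lam 1
  adm : ∀ j, Admissible m R₀ v N L (ψ j)
  near : ∀ φ : (Fin N → Fin 3 → ℝ) → ℂ, Admissible m R₀ v N L φ →
    ∑' j, ENNReal.ofReal (lam j) * energy m v N L (ψ j) ≤ energy m v N L φ + ENNReal.ofReal e

/-- The configuration `x` with particle `i` displaced by `y`, in the periodic box of side `L` (each coordinate is
reduced modulo `L` to `[0, L)`). -/
noncomputable def displace (L : ℝ) {N : ℕ} (i : Fin N) (y : Fin 3 → ℝ) (x : Fin N → Fin 3 → ℝ) :
    Fin N → Fin 3 → ℝ :=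
  Function.update x i (fun α => L * Int.fract ((x i α + y α) / L))

/-- The cube `[0, l)³`. -/
def cube (l : ℝ) : Set (Fin 3 → ℝ) := {u | ∀ α, 0 ≤ u α ∧ u α < l}

/-- **Local condensate fraction** of the state `ψ` in windows of side `l`. Let `P_{i,c}` be the orthogonal projection onto the
functions which are constant in `xᵢ` on the window `c + [0, l)³` (modulo `L`) and vanish for `xᵢ` outside of it. Then
`⟨ψ, P_{i,c} ψ⟩ = l⁻³ ∫ |∫_{[0, l)³} ψ(x with xᵢ = c + u) du|² ∏_{j ≠ i} dxⱼ`, the average number of particles in a window is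
`N l³ / L³`, and the local condensate fraction is the average of `∑ᵢ ⟨ψ, P_{i,c} ψ⟩` over `c` in the torus, over `N l³ / L³`. (Here `xᵢ`
plays the role of `c`.) -/
noncomputable def localFraction (N : ℕ) (L l : ℝ) (ψ : (Fin N → Fin 3 → ℝ) → ℂ) : ℝ :=
  (1 / (N * l ^ 6)) * ∑ i : Fin N, ∫ x in box N L, ‖∫ u in cube l, ψ (displace L i u x)‖ ^ 2

/-- The one particle density matrix over the density, at displacement `y`:
`(1/N) ∑ᵢ Re ∫ conj ψ(x) ψ(x with xᵢ replaced by xᵢ + y) dx` over the box. -/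
noncomputable def densityMatrix (N : ℕ) (L : ℝ) (ψ : (Fin N → Fin 3 → ℝ) → ℂ) (y : Fin 3 → ℝ) : ℝ :=
  (1 / (N : ℝ)) * ∑ i : Fin N, (∫ x in box N L, conj (ψ x) * ψ (displace L i y x)).re

/-- `𝒞(η) = (1/(16 π³)) ∫_{ℝ³} ((k² + 8π)/√(k⁴ + 16 π k²) - 1) cos (k·η) dk` -/
noncomputable def bogC (η : Fin 3 → ℝ) : ℝ :=
  1 / (16 * Real.pi ^ 3) * ∫ k : Fin 3 → ℝ,
    ((∑ α, k α ^ 2 + 8 * Real.pi)
        / Real.sqrt ((∑ α, k α ^ 2) ^ 2 + 16 * Real.pi * ∑ α, k α ^ 2) - 1)
      * Real.cos (∑ α, k α * η α)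

/-- Bogoliubov's depletion in a window of `K` healing lengths, over `√(ρ a³)`: `s(K) = 8 / (3 √π) - ∫∫ 𝒞(K (u' - u)) du du'`,
`u, u'` in the unit cube. -/
noncomputable def windowDepletion (K : ℝ) : ℝ :=
  8 / (3 * Real.sqrt Real.pi)
    - ∫ p : (Fin 3 → ℝ) × (Fin 3 → ℝ) in cube 1 ×ˢ cube 1, bogC (K • (p.2 - p.1))

lemma bogC_eq (η : Fin 3 → ℝ) : 2 * O.G3 η = 8 / (3 * Real.sqrt Real.pi) - bogC η := by
  rw [O.G3_eq]
  unfold bogC
  have h : ∀ k : Fin 3 → ℝ, Real.cos (∑ α, k α * η α) * Jgd (nr k ^ 2)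
      = ((∑ α, k α ^ 2 + 8 * Real.pi)
        / Real.sqrt ((∑ α, k α ^ 2) ^ 2 + 16 * Real.pi * ∑ α, k α ^ 2) - 1)
      * Real.cos (∑ α, k α * η α) := by
    intro k
    unfold Jgd
    rw [nr_sq]
    ring
  rw [integral_congr_ae (Filter.Eventually.of_forall h)]

lemma windowDepletion_eq : windowDepletion = LW.winDep := by
  funext K
  unfold windowDepletion LW.winDep
  have hm : (volume : Measure ((Fin 3 → ℝ) × (Fin 3 → ℝ))).restrict (cube 1 ×ˢ cube 1)
      = LW.mu1.prod LW.mu1 := by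
    unfold LW.mu1
    rw [Measure.prod_restrict]
    rfl
  have h : ∀ p : (Fin 3 → ℝ) × (Fin 3 → ℝ), bogC (K • (p.2 - p.1))
      = 8 / (3 * Real.sqrt Real.pi) - 2 * O.G3 (K • (p.2 - p.1)) := fun p => by
    rw [bogC_eq]
    ring
  rw [hm, integral_congr_ae (Filter.Eventually.of_forall h),
    integral_sub (integrable_const _) (LW.winDep_int K)]
  simp

lemma ratio_low {c e Z D : ℝ} (hc : 1 ≤ c) (he : 0 ≤ e) (hZ : 0 < Z) (h : (c - e) * Z ≤ D) :
    1 - e ≤ D / (c * Z) := by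
  have hcZ : 0 < c * Z := by positivity
  rw [le_div_iff₀ hcZ]
  have h1 : e * Z ≤ e * (c * Z) := by
    have : 1 * Z ≤ c * Z := mul_le_mul_of_nonneg_right hc hZ.le
    exact mul_le_mul_of_nonneg_left (by linarith) he
  linarith

lemma ratio_up {c e Z D : ℝ} (hc : 1 ≤ c) (he : 0 ≤ e) (hZ : 0 < Z) (h : D ≤ (c + e) * Z) :
    D / (c * Z) ≤ 1 + e := by
  have hcZ : 0 < c * Z := by positivity
  rw [div_le_iff₀ hcZ]
  have h1 : e * Z ≤ e * (c * Z) := by
    have : 1 * Z ≤ c * Z := mul_le_mul_of_nonneg_right hc hZ.le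
    exact mul_le_mul_of_nonneg_left (by linarith) he
  linarith

/-- **The law of Lee, Huang and Yang for the local condensate fraction**, in the thermodynamic limit. -/
theorem result (m R₀ R : ℝ) (v : (Fin 3 → ℝ) → ℝ) (hm : 0 < m) (hR₀ : 0 ≤ R₀) (hv : Integrable v)
    (hv0 : ∀ x, 0 ≤ v x)
    (hrad : ∀ x y : Fin 3 → ℝ, ∑ α, x α ^ 2 = ∑ α, y α ^ 2 → v x = v y)
    (hsupp : ∀ x : Fin 3 → ℝ, R ^ 2 ≤ ∑ α, x α ^ 2 → v x = 0)
    (hgen : 0 < R₀ ∨ ¬ (v =ᵐ[volume] 0)) (a : ℝ) (ha : a = scatLen m R₀ v) :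
    0 < a ∧
    -- for `l = L` the local condensate fraction is the condensate fraction
    (∀ (N : ℕ) (L : ℝ) (ψ : (Fin N → Fin 3 → ℝ) → ℂ), 1 ≤ N → 0 < L →
      MemLp ψ 2 (volume.restrict (box N L)) → localFraction N L L ψ = condFraction N L ψ) ∧
    -- the law in windows: both halves up to `κ ρ` healing lengths, the lower half in all windows
    (∃ κ : ℝ → ℝ, Tendsto κ (𝓝[>] 0) atTop ∧ ∀ ε : ℝ, 0 < ε → ∃ K₀ : ℝ, 0 < K₀ ∧
      Dilute fun ρ N =>
        (∃ ψ : (Fin N → Fin 3 → ℝ) → ℂ, IsGround m R₀ v N (side ρ N) ψ) ∧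
        ∀ ψ : (Fin N → Fin 3 → ℝ) → ℂ, IsGround m R₀ v N (side ρ N) ψ →
        ∀ l : ℝ, K₀ ≤ Real.sqrt (ρ * a) * l → l ≤ side ρ N →
          1 - ε ≤ (1 - localFraction N (side ρ N) l ψ)
              / (8 * Real.sqrt (ρ * a ^ 3) / (3 * Real.sqrt Real.pi)) ∧
          (Real.sqrt (ρ * a) * l ≤ κ ρ → (1 - localFraction N (side ρ N) l ψ)
              / (8 * Real.sqrt (ρ * a ^ 3) / (3 * Real.sqrt Real.pi)) ≤ 1 + ε)) ∧
    -- all windows, all states
    Tendsto windowDepletion atTop (𝓝 (8 / (3 * Real.sqrt Real.pi))) ∧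
    ∀ ε : ℝ, 0 < ε → ∃ M : ℝ, 0 < M ∧ Dilute fun ρ N =>
      ∀ x : ℝ, 0 ≤ x → ∀ (lam : ℕ → ℝ) (ψ : ℕ → (Fin N → Fin 3 → ℝ) → ℂ),
        IsNear m R₀ (x * (N * (ρ * a / m) * Real.sqrt (ρ * a ^ 3))) v N (side ρ N) lam ψ →
        (∀ l : ℝ, 0 < l → l ≤ side ρ N →
          |∑' j, lam j * (1 - localFraction N (side ρ N) l (ψ j))
              - windowDepletion (Real.sqrt (ρ * a) * l) * Real.sqrt (ρ * a ^ 3)|
            ≤ (ε + M * x) * (1 + ρ * a * l ^ 2) * Real.sqrt (ρ * a ^ 3) ∧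
          (windowDepletion (Real.sqrt (ρ * a) * l) - (ε + M * x)) * Real.sqrt (ρ * a ^ 3)
            ≤ ∑' j, lam j * (1 - localFraction N (side ρ N) l (ψ j))) ∧
        -- the density matrix
        ∀ y : Fin 3 → ℝ,
          |∑' j, lam j * densityMatrix N (side ρ N) (ψ j) y
            - (1 - (8 / (3 * Real.sqrt Real.pi) - bogC (Real.sqrt (ρ * a) • y))
              * Real.sqrt (ρ * a ^ 3))|
            ≤ (ε + M * x) * (1 + ρ * a * ∑ α, y α ^ 2) * Real.sqrt (ρ * a ^ 3) := by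
  obtain ⟨R', hR, hsupp'⟩ : ∃ R' : ℝ, R₀ < R' ∧ ∀ x : Fin 3 → ℝ, R' ^ 2 ≤ ∑ α, x α ^ 2 → v x = 0 :=
    ⟨|R| + R₀ + 1, by linarith [abs_nonneg R], fun x hx => hsupp x (le_trans (by
      rw [← sq_abs R]
      exact pow_le_pow_left₀ (abs_nonneg R) (by linarith) 2) hx)⟩
  have hgen' : 0 < R₀ ∨ 0 < ∫ x, v x := by
    rcases hgen with h | h
    · exact Or.inl h
    · right
      have h1 : 0 ≤ ∫ x, v x := integral_nonneg hv0
      refine lt_of_le_of_ne h1 fun h2 => h ?_
      exact (integral_eq_zero_iff_of_nonneg hv0 hv).1 h2.symm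
  have hP : LG.Phys m R₀ R' v := ⟨hm, hR₀, hR, hv, hv0, hrad, hsupp', hgen'⟩
  have ha0 : 0 < a := by
    rw [ha]
    exact (O.F4_trunc hm hR₀ hR hv hv0 hrad hsupp' hgen').1
  have hsp : 0 < Real.sqrt Real.pi := Real.sqrt_pos.2 Real.pi_pos
  have hc1 : 1 ≤ 8 / (3 * Real.sqrt Real.pi) := by
    rw [le_div_iff₀ (by positivity)]
    have h1 : Real.sqrt Real.pi ≤ 2 := by
      rw [Real.sqrt_le_left (by norm_num)]
      have := Real.pi_le_four
      linarith
    linarith
  have hcZ : ∀ Z : ℝ, 8 * Z / (3 * Real.sqrt Real.pi) = 8 / (3 * Real.sqrt Real.pi) * Z :=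
    fun Z => by ring
  refine ⟨ha0, fun N L ψ hN hL hψ => LW.localFraction_self hN hL hψ, ?_, ?_, fun ε hε => ?_⟩
  · obtain ⟨κ, hκ, h1⟩ := LW.loc_diag hP ha
    refine ⟨κ, hκ, fun ε hε => ?_⟩
    obtain ⟨K₀, hK₀, h2⟩ := h1 ε hε
    refine ⟨K₀, hK₀, (h2.and (LK.near_abs hP ha one_pos)).mono fun ρ N hρ h => ?_⟩
    obtain ⟨h3, hN, hL, ⟨φ₀, hφ₀⟩, -, -⟩ := h
    refine ⟨⟨φ₀, hφ₀.1, fun φ hφ => by simpa using hφ₀.2 φ hφ⟩, fun ψ hψ l hlK _ => ?_⟩
    have hZ : 0 < Real.sqrt (ρ * a ^ 3) := Real.sqrt_pos.2 (by positivity)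
    have hs : 0 < Real.sqrt (ρ * a) := Real.sqrt_pos.2 (by positivity)
    have hl : 0 < l := by
      by_contra hl
      have := mul_nonpos_of_nonneg_of_nonpos hs.le (not_lt.1 hl)
      linarith
    have hψ' : LG.IsNear m R₀ 0 v N (side ρ N) ψ := ⟨hψ.1, fun φ hφ => by simpa using hψ.2 φ hφ⟩
    obtain ⟨h4, h5⟩ := h3 ψ hψ' l hl hlK
    rw [hcZ]
    exact ⟨ratio_low hc1 hε.le hZ h4, fun hlκ => ratio_up hc1 hε.le hZ (h5 hlκ)⟩
  · rw [windowDepletion_eq]
    exact LW.winDep_tendsto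
  · obtain ⟨M, hM, h1⟩ := LK.dm_full hP ha hε
    obtain ⟨M', hM', h1'⟩ := LW.loc_full hP ha hε
    refine ⟨max M M', lt_max_of_lt_left hM,
      ((h1.and h1').and (LK.near_abs hP ha one_pos)).mono fun ρ N hρ h => ?_⟩
    obtain ⟨⟨h2, h2'⟩, hN, hL, ⟨φ₀, hφ₀⟩, -, -⟩ := h
    intro x hx lam ψ hψ
    have hN0 : (0:ℝ) < N := by exact_mod_cast hN
    have hZ : 0 < Real.sqrt (ρ * a ^ 3) := Real.sqrt_pos.2 (by positivity)
    have hc : 0 < N * (ρ * a / m) * Real.sqrt (ρ * a ^ 3) := by positivity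
    have hMM : 0 ≤ max M M' := (lt_max_of_lt_left hM).le
    refine ⟨fun l hl _ => ?_, fun y => ?_⟩
    · have hB : ∀ ψ : (Fin N → Fin 3 → ℝ) → ℂ, Admissible m R₀ v N (side ρ N) ψ →
          |1 - localFraction N (side ρ N) l ψ| ≤ 3 := fun ψ h => by
        have h3 := LW.localFraction_bd hN hL hl h.1 h.2.1
        have h4 : localFraction N (side ρ N) l ψ = LW.localFraction N (side ρ N) l ψ := rfl
        rw [h4, abs_le]
        constructor <;> linarith [h3.1, h3.2]
      rw [windowDepletion_eq]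
      refine ⟨?_, ?_⟩
      · have h3 := LK.mix_abs (q := fun ψ => 1 - localFraction N (side ρ N) l ψ) (B := 3)
          (t := LW.winDep (Real.sqrt (ρ * a) * l) * Real.sqrt (ρ * a ^ 3)) (ε := ε) (M := max M M')
          (z := (1 + ρ * a * l ^ 2) * Real.sqrt (ρ * a ^ 3)) hc (by positivity) hMM
          hφ₀ hB (fun x hx ψ h => by
            have h4 := (h2' x hx ψ h l hl).1
            refine h4.trans ?_
            rw [← mul_assoc]
            refine mul_le_mul_of_nonneg_right ?_ hZ.le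
            refine mul_le_mul_of_nonneg_right ?_ (by positivity)
            have := mul_le_mul_of_nonneg_right (le_max_right M M') hx
            linarith) hψ.nonneg hψ.sum hψ.adm hx (hψ.near φ₀ hφ₀.1)
        rw [← mul_assoc] at h3
        exact h3
      · have h3 := LK.mix_low (q := fun ψ => 1 - localFraction N (side ρ N) l ψ) (B := 3)
          (t := LW.winDep (Real.sqrt (ρ * a) * l) * Real.sqrt (ρ * a ^ 3)) (ε := ε) (M := max M M')
          (z := Real.sqrt (ρ * a ^ 3)) hc hZ.le hMM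
          hφ₀ hB (fun x hx ψ h => by
            have h4 := (h2' x hx ψ h l hl).2
            refine le_trans ?_ h4
            have h5 := mul_le_mul_of_nonneg_right (le_max_right M M') hx
            have h6 := mul_le_mul_of_nonneg_right h5 hZ.le
            linarith) hψ.nonneg hψ.sum hψ.adm hx (hψ.near φ₀ hφ₀.1)
        rw [sub_mul]
        exact h3
    · have hy : 0 ≤ ∑ α, y α ^ 2 := Finset.sum_nonneg fun α _ => sq_nonneg _
      have h3 := LK.mix_abs (q := fun ψ => O.densityMatrix N (side ρ N) ψ y) (B := 3)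
        (ε := ε) (M := max M M')
        (t := 1 - 2 * O.G3 (Real.sqrt (ρ * a) • y) * Real.sqrt (ρ * a ^ 3))
        (z := (1 + ρ * a * ∑ α, y α ^ 2) * Real.sqrt (ρ * a ^ 3)) hc (by positivity) hMM
        hφ₀ (fun ψ h => LK.dm_bd hN hL y h) (fun x hx ψ h => by
          refine (h2 x hx ψ h y).trans ?_
          rw [← mul_assoc]
          refine mul_le_mul_of_nonneg_right ?_ hZ.le
          refine mul_le_mul_of_nonneg_right ?_ (by positivity)
          have := mul_le_mul_of_nonneg_right (le_max_left M M') hx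
          linarith) hψ.nonneg hψ.sum hψ.adm hx (hψ.near φ₀ hφ₀.1)
      rw [← mul_assoc, bogC_eq] at h3
      exact h3

end Pool.Agent.Results.MP_4952d6_mp.LocalCondensation
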