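import Pool.Agent.Lib.MP_4952d6_mp.Ps.S06

/-!
# The momentum distribution and the Lee-Huang-Yang depletion law in mesoscopic boxes

`N` bosons in the periodic box of side `L = (N/ρ)^{1/3}`; `K = L √(ρ a)` is the side of the box in units of the
healing length.  There is an absolute `κ₀ > 0` such that for every hard core radius `R₀ ≥ 0` and every radial
nonnegative integrable `v` which vanishes outside some ball (with a genuine interaction) and all small `ρ`: if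
`10 ≤ K ≤ (ρ a³)^(-κ₀)`, then there is a ground state, and for every ground state the numbers `n_k` of the particles with
momentum `2 π k / L` are those of Bogoliubov's theory,

  `b_K(k) = (1/2) ((k² + 8πK²) / √(k⁴ + 16πK² k²) - 1)`, `k ∈ 2π ℤ³`, `k ≠ 0`,

up to a total deviation `∑_{k ≠ 0} |(n_k + n_{-k}) / 2 - b_K(k)| ≤ C (ρ a³)^κ₀` which tends to zero with the density
(for a real function `ψ` one has `n_k = n_{-k}`). In particular the condensate fraction is `1 - s(K) √(ρ a³)` up to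
`C (ρ a³)^(1/2 + κ₀)`, where `s(K) = K⁻³ ∑_{k ≠ 0} b_K(k) → 8 / (3 √π)` as `K → ∞`, the constant of Lee, Huang and Yang.
`N` is then arbitrarily large: the boxes reach from the Gross-Pitaevskii regime (`K` fixed) to sides of `(ρ a³)^(-κ₀)`
healing lengths.

Method: upper and lower bounds for the ground state energy, with errors smaller than the second order by a power of `ρ a³`,
the lower bound for the kinetic energy `p²` replaced by `p² ± κ σ(p)` with arbitrary signs `σ(p) = σ(-p)` (`κ` a power of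
`ρ a³`), which gives the sum of the absolute values of the deviations.  Lower bound: local moment bounds of the
ground state, exact elimination of the high momenta, an uncertainty relation for the density operator at each low momentum.
Upper bound: Jastrow state with a soft infrared part, evaluated by a resampling argument and exponential moments.
-/

set_option autoImplicit false
open MeasureTheory Filter Topology
open scoped ENNReal

namespace Pool.Agent.Results.MP_4952d6_mp.MesoDepletion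

/-- `k²` for the momentum `k = 2 π p` of the unit torus. -/
noncomputable def kk (p : Fin 3 → ℤ) : ℝ := (2 * Real.pi) ^ 2 * ∑ α, (p α : ℝ) ^ 2

/-- The number of the particles with momentum `2 π p / L` in Bogoliubov's theory, for the box whose side `L` is `K`
healing lengths. -/
noncomputable def bogNumber (K : ℝ) (p : Fin 3 → ℤ) : ℝ :=
  1 / 2 * ((kk p + 8 * Real.pi * K ^ 2) / Real.sqrt (kk p ^ 2 + 16 * Real.pi * K ^ 2 * kk p) - 1)

/-- The depletion of Bogoliubov theory in the box whose side is `K` healing lengths, in units of `√(ρ a³)`. -/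
noncomputable def boxDepletion (K : ℝ) : ℝ :=
  1 / K ^ 3 * ∑' p : Fin 3 → ℤ, if p = 0 then 0 else bogNumber K p

open Pool.Agent.Lib.MP_4952d6_mp

/-- `ψ` is a ground state of `N` bosons in the box of side `L`: an admissible state of minimal energy. -/
def IsGround (m R₀ : ℝ) (v : (Fin 3 → ℝ) → ℝ) (N : ℕ) (L : ℝ) (ψ : (Fin N → Fin 3 → ℝ) → ℂ) : Prop :=
  Admissible m R₀ v N L ψ ∧
    ∀ φ : (Fin N → Fin 3 → ℝ) → ℂ, Admissible m R₀ v N L φ → energy m v N L ψ ≤ energy m v N L φ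

/-- The number of the particles with momentum `2 π p / L`: `∑ᵢ ⟨ψ, 1(pᵢ = 2πp/L) ψ⟩`. Particle `i` has the momentum
`2πqᵢ/L` in the plane wave `L^{-3N/2} exp (2πi q·x / L)`, `q ∈ (ℤ³)^N`. -/
noncomputable def occupation (N : ℕ) (L : ℝ) (ψ : (Fin N → Fin 3 → ℝ) → ℂ) (p : Fin 3 → ℤ) : ℝ :=
  ∑ i : Fin N, ∑' q : Fin N → Fin 3 → ℤ, if q i = p then ‖fourierC N L ψ q‖ ^ 2 else 0

lemma kk_eq (p : Fin 3 → ℤ) : kk p = ksq p := by
  unfold kk ksq mom2
  ring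

lemma bog_eq {K : ℝ} (hK : 0 < K) (p : Fin 3 → ℤ) (hp : p ≠ 0) :
    bogNumber K p = 1 / 2 * Jgd ((1 / K) ^ 2 * ksq p) := by
  have hpi := Real.pi_pos
  have hk : 0 < ksq p := lt_of_lt_of_le one_pos (LB.X_ksq_ge_one hp)
  unfold bogNumber Jgd
  rw [kk_eq]
  have h2 : ((1 / K) ^ 2 * ksq p) ^ 2 + 16 * Real.pi * ((1 / K) ^ 2 * ksq p)
      = ((1 / K) ^ 2) ^ 2 * (ksq p ^ 2 + 16 * Real.pi * K ^ 2 * ksq p) := by
    field_simp
  rw [h2, Real.sqrt_mul (by positivity), Real.sqrt_sq (by positivity)]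
  have h3 : (1 / K) ^ 2 * ksq p + 8 * Real.pi = (1 / K) ^ 2 * (ksq p + 8 * Real.pi * K ^ 2) := by
    field_simp
  rw [h3, mul_div_mul_left _ _ (by positivity)]

lemma box_eq {K : ℝ} (hK : 0 < K) : boxDepletion K = M.sl (1 / K) := by
  have hK' : 0 < 1 / K := by positivity
  rw [sl_eq hK', LB.X_SLS hK']
  unfold boxDepletion
  have h1 : (∑' p : Fin 3 → ℤ, if p = 0 then 0 else bogNumber K p)
      = 1 / 2 * ∑' p : Fin 3 → ℤ, if p = 0 then 0 else Jgd ((1 / K) ^ 2 * ksq p) := by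
    rw [← tsum_mul_left]
    refine tsum_congr fun p => ?_
    split_ifs with hp
    · simp
    · exact bog_eq hK p hp
  rw [h1, one_div_pow]
  ring

/-- The function `boxDepletion` tends to the Lee-Huang-Yang constant. -/
lemma box_tendsto : Tendsto boxDepletion atTop (𝓝 (8 / (3 * Real.sqrt Real.pi))) := by
  have h1 : Tendsto (fun K : ℝ => 1 / K) atTop (𝓝[>] 0) := by
    simp only [one_div]
    exact tendsto_inv_atTop_nhdsGT_zero
  refine (sl_tendsto.comp h1).congr' ?_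
  filter_upwards [eventually_gt_atTop 0] with K hK
  rw [box_eq hK]
  rfl

lemma fourierC_neg {N : ℕ} {L : ℝ} {ψ : (Fin N → Fin 3 → ℝ) → ℂ} (h : ∀ x, (ψ x).im = 0)
    (q : Fin N → Fin 3 → ℤ) : fourierC N L ψ (-q) = (starRingEnd ℂ) (fourierC N L ψ q) := by
  unfold fourierC
  rw [map_mul, Complex.conj_ofReal, ← integral_conj]
  congr 1
  refine integral_congr_ae (Filter.Eventually.of_forall fun x => ?_)
  simp only
  rw [map_mul, ← Complex.exp_conj, Complex.conj_eq_iff_im.2 (h x)]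
  congr 2
  simp only [map_mul, map_neg, map_div₀, map_sum, Complex.conj_ofReal, Complex.conj_I, map_intCast,
    map_ofNat, Pi.neg_apply, Int.cast_neg, neg_mul, mul_neg, neg_neg, Finset.sum_neg_distrib,
    neg_div]

/-- A real function has as many particles with momentum `-k` as with momentum `k`. -/
lemma occupation_neg {N : ℕ} {L : ℝ} {ψ : (Fin N → Fin 3 → ℝ) → ℂ} (h : ∀ x, (ψ x).im = 0)
    (p : Fin 3 → ℤ) : occupation N L ψ (-p) = occupation N L ψ p := by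
  unfold occupation
  refine Finset.sum_congr rfl fun i _ => ?_
  rw [← (Equiv.neg (Fin N → Fin 3 → ℤ)).tsum_eq]
  refine tsum_congr fun q => ?_
  rw [Equiv.neg_apply, fourierC_neg h, RCLike.norm_conj, Pi.neg_apply]
  simp only [neg_inj]

/-- **The momentum distribution and the Lee-Huang-Yang depletion law in mesoscopic boxes.** -/
theorem result :
    Tendsto boxDepletion atTop (𝓝 (8 / (3 * Real.sqrt Real.pi))) ∧
    ∃ κ₀ : ℝ, 0 < κ₀ ∧ ∀ (m R₀ R : ℝ) (v : (Fin 3 → ℝ) → ℝ), 0 < m → 0 ≤ R₀ → Integrable v →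
      (∀ x, 0 ≤ v x) →
      (∀ x y : Fin 3 → ℝ, ∑ α, x α ^ 2 = ∑ α, y α ^ 2 → v x = v y) →
      (∀ x : Fin 3 → ℝ, R ^ 2 ≤ ∑ α, x α ^ 2 → v x = 0) →
      (0 < R₀ ∨ ¬ (v =ᵐ[volume] 0)) →
      ∀ a : ℝ, a = scatLen m R₀ v → 0 < a ∧
      -- the explicit laws, with a power rate, for all boxes with `10 ≤ K ≤ (ρ a³)^(-κ₀)`
      (∃ C ρ₀ : ℝ, 0 < C ∧ 0 < ρ₀ ∧ ∀ ρ : ℝ, 0 < ρ → ρ < ρ₀ → ∀ (N : ℕ) (K : ℝ),
        K = side ρ N * Real.sqrt (ρ * a) → 10 ≤ K → K ≤ (ρ * a ^ 3) ^ (-κ₀) →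
        (∃ ψ : (Fin N → Fin 3 → ℝ) → ℂ, IsGround m R₀ v N (side ρ N) ψ) ∧
        ∀ ψ : (Fin N → Fin 3 → ℝ) → ℂ, IsGround m R₀ v N (side ρ N) ψ →
          -- the numbers of the particles with momentum `±k`, for all `k ≠ 0` together
          (∀ s : Finset (Fin 3 → ℤ), 0 ∉ s →
            ∑ k ∈ s, |(occupation N (side ρ N) ψ k + occupation N (side ρ N) ψ (-k)) / 2
              - bogNumber K k| ≤ C * (ρ * a ^ 3) ^ κ₀) ∧
          -- the number with momentum `k` itself, if `ψ` is real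
          ((∀ x, (ψ x).im = 0) → ∀ s : Finset (Fin 3 → ℤ), 0 ∉ s →
            ∑ k ∈ s, |occupation N (side ρ N) ψ k - bogNumber K k| ≤ C * (ρ * a ^ 3) ^ κ₀) ∧
          -- the depletion
          |1 - condFraction N (side ρ N) ψ - boxDepletion K * Real.sqrt (ρ * a ^ 3)|
            ≤ C * (ρ * a ^ 3) ^ (1 / 2 + κ₀)) ∧
      -- hence the asymptotics of Lee, Huang and Yang as `ρ → 0` and `K → ∞`
      (∀ ε : ℝ, 0 < ε → ∃ ρ₁ K₁ : ℝ, 0 < ρ₁ ∧ ∀ ρ : ℝ, 0 < ρ → ρ < ρ₁ → ∀ (N : ℕ) (K : ℝ),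
        K = side ρ N * Real.sqrt (ρ * a) → K₁ ≤ K → K ≤ (ρ * a ^ 3) ^ (-κ₀) →
        ∀ ψ : (Fin N → Fin 3 → ℝ) → ℂ, IsGround m R₀ v N (side ρ N) ψ →
          |(1 - condFraction N (side ρ N) ψ)
            / (8 * Real.sqrt (ρ * a ^ 3) / (3 * Real.sqrt Real.pi)) - 1| ≤ ε) := by
  refine ⟨box_tendsto, ?_⟩
  obtain ⟨κ₁, hκ₁, H⟩ := meso_rate_s
  obtain ⟨κ₀, hκd⟩ : ∃ κ₀ : ℝ, κ₀ = κ₁ / 4 := ⟨_, rfl⟩
  have hκ₀ : 0 < κ₀ := by rw [hκd]; positivity
  have hκ4 : κ₁ = 4 * κ₀ := by rw [hκd]; ring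
  refine ⟨κ₀, hκ₀, ?_⟩
  intro m R₀ R v hm hR₀ hv hv0 hrad hsupp hgen a ha
  have hgen' : 0 < R₀ ∨ 0 < ∫ x, v x := by
    rcases hgen with h | h
    · exact Or.inl h
    · right
      have h1 : 0 ≤ ∫ x, v x := integral_nonneg hv0
      refine lt_of_le_of_ne h1 fun h2 => h ?_
      exact (integral_eq_zero_iff_of_nonneg hv0 hv).1 h2.symm
  obtain ⟨ha0, C, ρ₂, hC, hρ₂, h⟩ := H m R₀ (|R| + R₀ + 1) v hm hR₀ (by linarith [abs_nonneg R]) hv
    hv0 hrad (fun x hx => hsupp x (le_trans (by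
      rw [← sq_abs R]
      exact pow_le_pow_left₀ (abs_nonneg R) (by linarith [abs_nonneg R]) 2) hx)) hgen'
  rw [← ha] at ha0 h
  obtain ⟨ρ₀, hρ₀d⟩ : ∃ ρ₀ : ℝ, ρ₀ = min ρ₂ (1 / a ^ 3) := ⟨_, rfl⟩
  have hρ₀ : 0 < ρ₀ := by rw [hρ₀d]; exact lt_min hρ₂ (by positivity)
  have hZ1 : ∀ ρ : ℝ, 0 < ρ → ρ < ρ₀ → ρ * a ^ 3 ≤ 1 := by
    intro ρ hρ hρ1
    have h1 : ρ < 1 / a ^ 3 := hρ1.trans_le (by rw [hρ₀d]; exact min_le_right _ _)
    rw [lt_div_iff₀ (by positivity)] at h1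
    exact h1.le
  have h : ∀ ρ : ℝ, 0 < ρ → ρ < ρ₀ → ∀ (N : ℕ) (K : ℝ),
      K = side ρ N * Real.sqrt (ρ * a) → 10 ≤ K → K ≤ (ρ * a ^ 3) ^ (-κ₀) →
      1 ≤ N ∧ (∃ φ : (Fin N → Fin 3 → ℝ) → ℂ, Admissible m R₀ v N (side ρ N) φ) ∧
      ∀ ψ : (Fin N → Fin 3 → ℝ) → ℂ, IsGround m R₀ v N (side ρ N) ψ →
        |(1 - condFraction N (side ρ N) ψ) / Real.sqrt (ρ * a ^ 3) - M.sl (1 / K)|
          ≤ C * (ρ * a ^ 3) ^ κ₁ ∧
        Summable (M.dev (1 / K) (TT N (side ρ N) ψ)) ∧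
        (∑' p, M.dev (1 / K) (TT N (side ρ N) ψ) p) / (N * Real.sqrt (ρ * a ^ 3))
          ≤ C * (ρ * a ^ 3) ^ κ₁ := by
    intro ρ hρ hρ1 N K hK hK1 hK2
    have hZ : 0 < ρ * a ^ 3 := by positivity
    have h1 : (ρ * a ^ 3) ^ (-κ₀) ≤ (ρ * a ^ 3) ^ (-κ₁) :=
      Real.rpow_le_rpow_of_exponent_ge hZ (hZ1 ρ hρ hρ1) (by linarith)
    obtain ⟨b1, b2, b3⟩ := h ρ hρ (hρ1.trans_le (by rw [hρ₀d]; exact min_le_left _ _)) N
      (by rw [← hK]; exact hK1) (by rw [← hK]; exact hK2.trans h1)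
    rw [← hK] at b3
    exact ⟨b1, b2, fun ψ hψ => b3 ψ hψ.1 hψ.2⟩
  -- existence of a ground state, and the basic estimate
  have hex : ∀ ρ : ℝ, 0 < ρ → ρ < ρ₀ → ∀ (N : ℕ) (K : ℝ),
      K = side ρ N * Real.sqrt (ρ * a) → 10 ≤ K → K ≤ (ρ * a ^ 3) ^ (-κ₀) →
      ∃ ψ : (Fin N → Fin 3 → ℝ) → ℂ, IsGround m R₀ v N (side ρ N) ψ := by
    intro ρ hρ hρ1 N K hK hK1 hK2
    obtain ⟨hN, hφ, -⟩ := h ρ hρ hρ1 N K hK hK1 hK2
    exact M.exists_ground hm (side_pos hρ hN) hR₀ hv.aestronglyMeasurable.aemeasurable hφ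
  have hbase : ∀ ρ : ℝ, 0 < ρ → ρ < ρ₀ → ∀ (N : ℕ) (K : ℝ),
      K = side ρ N * Real.sqrt (ρ * a) → 10 ≤ K → K ≤ (ρ * a ^ 3) ^ (-κ₀) →
      ∀ ψ : (Fin N → Fin 3 → ℝ) → ℂ, IsGround m R₀ v N (side ρ N) ψ →
        |(1 - condFraction N (side ρ N) ψ) / Real.sqrt (ρ * a ^ 3) - boxDepletion K|
          ≤ C * (ρ * a ^ 3) ^ κ₀ := by
    intro ρ hρ hρ1 N K hK hK1 hK2 ψ hψ
    obtain ⟨-, -, h1⟩ := h ρ hρ hρ1 N K hK hK1 hK2
    rw [box_eq (by linarith)]
    refine ((h1 ψ hψ).1).trans (mul_le_mul_of_nonneg_left ?_ hC.le)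
    exact Real.rpow_le_rpow_of_exponent_ge (by positivity) (hZ1 ρ hρ hρ1) (by linarith)
  refine ⟨ha0, ⟨C, ρ₀, hC, hρ₀, ?_⟩, ?_⟩
  · intro ρ hρ hρ1 N K hK hK1 hK2
    refine ⟨hex ρ hρ hρ1 N K hK hK1 hK2, fun ψ hψ => ?_⟩
    have hpart1 : ∀ s : Finset (Fin 3 → ℤ), 0 ∉ s →
        ∑ k ∈ s, |(occupation N (side ρ N) ψ k + occupation N (side ρ N) ψ (-k)) / 2
              - bogNumber K k| ≤ C * (ρ * a ^ 3) ^ κ₀ := by
      intro s hs
      obtain ⟨hN, -, h1⟩ := h ρ hρ hρ1 N K hK hK1 hK2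
      obtain ⟨-, h2, h3⟩ := h1 ψ hψ
      have hL := side_pos hρ hN
      have hL3 := side_cube hρ hN
      have hNL : (N : ℝ) = ρ * side ρ N ^ 3 := by
        rw [div_eq_iff (by positivity)] at hL3
        exact hL3
      rw [hκ4] at h3
      have h4 := S6_real hρ ha0 hL hNL hK (hZ1 ρ hρ hρ1) hκ₀ hC.le hK2 h3
      have h5 : ∑ k ∈ s, |(occupation N (side ρ N) ψ k + occupation N (side ρ N) ψ (-k)) / 2
              - bogNumber K k| = ∑ k ∈ s, M.dev (1 / K) (TT N (side ρ N) ψ) k := by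
        refine Finset.sum_congr rfl fun k hk => ?_
        have hk0 : k ≠ 0 := fun h => hs (h ▸ hk)
        unfold M.dev occupation
        rw [if_neg hk0, S6_nF hL hψ.1.1.1, S6_nF hL hψ.1.1.1, bog_eq (by linarith) k hk0]
      rw [h5]
      exact (h2.sum_le_tsum s fun k _ => LB.S5_dev_nonneg _ _ k).trans h4
    refine ⟨hpart1, ?_, ?_⟩
    · intro hre s hs
      refine le_trans (le_of_eq (Finset.sum_congr rfl fun k _ => ?_)) (hpart1 s hs)
      rw [occupation_neg hre]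
      congr 2
      ring
    · have h1 := hbase ρ hρ hρ1 N K hK hK1 hK2 ψ hψ
      have hZ : 0 < ρ * a ^ 3 := by positivity
      have hs : 0 < Real.sqrt (ρ * a ^ 3) := Real.sqrt_pos.2 hZ
      have h2 : 1 - condFraction N (side ρ N) ψ - boxDepletion K * Real.sqrt (ρ * a ^ 3)
          = ((1 - condFraction N (side ρ N) ψ) / Real.sqrt (ρ * a ^ 3) - boxDepletion K)
            * Real.sqrt (ρ * a ^ 3) := by
        field_simp
      rw [h2, abs_mul, abs_of_pos hs, Real.rpow_add hZ, ← Real.sqrt_eq_rpow]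
      calc |(1 - condFraction N (side ρ N) ψ) / Real.sqrt (ρ * a ^ 3) - boxDepletion K|
            * Real.sqrt (ρ * a ^ 3) ≤ (C * (ρ * a ^ 3) ^ κ₀) * Real.sqrt (ρ * a ^ 3) :=
            mul_le_mul_of_nonneg_right h1 hs.le
        _ = C * (Real.sqrt (ρ * a ^ 3) * (ρ * a ^ 3) ^ κ₀) := by ring
  · intro ε hε
    have hpi := Real.pi_pos
    set c : ℝ := 8 / (3 * Real.sqrt Real.pi) with hc
    have hc0 : 0 < c := by
      have := Real.sqrt_pos.2 hpi
      rw [hc]; positivity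
    -- `K₁`
    have hlim := Metric.tendsto_atTop.1 box_tendsto (ε * c / 2) (by positivity)
    obtain ⟨K₂, hK₂⟩ := hlim
    -- `ρ₁`
    obtain ⟨ρ₃, hρ₃, hρ₃'⟩ : ∃ ρ₃ : ℝ, 0 < ρ₃ ∧ ∀ ρ : ℝ, 0 < ρ → ρ < ρ₃ →
        C * (ρ * a ^ 3) ^ κ₀ ≤ ε * c / 2 := by
      have h1 : 0 < (ε * c / 2 / C) ^ (1 / κ₀) := by positivity
      refine ⟨(ε * c / 2 / C) ^ (1 / κ₀) / a ^ 3, by positivity, fun ρ hρ hρ1 => ?_⟩
      have hZ : 0 < ρ * a ^ 3 := by positivity
      rw [lt_div_iff₀ (by positivity)] at hρ1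
      have h2 : (ρ * a ^ 3) ^ κ₀ ≤ ε * c / 2 / C := by
        calc (ρ * a ^ 3) ^ κ₀ ≤ ((ε * c / 2 / C) ^ (1 / κ₀)) ^ κ₀ :=
              Real.rpow_le_rpow hZ.le hρ1.le hκ₀.le
          _ = ε * c / 2 / C := by
              rw [← Real.rpow_mul (by positivity), one_div, inv_mul_cancel₀ hκ₀.ne', Real.rpow_one]
      rw [le_div_iff₀ hC] at h2
      linarith
    refine ⟨min ρ₀ ρ₃, max 10 K₂, lt_min hρ₀ hρ₃, ?_⟩
    intro ρ hρ hρ1 N K hK hK1 hK2 ψ hψ
    have h1 := hbase ρ hρ (hρ1.trans_le (min_le_left _ _)) N K hK ((le_max_left _ _).trans hK1)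
      hK2 ψ hψ
    have h2 := hρ₃' ρ hρ (hρ1.trans_le (min_le_right _ _))
    have h3 := hK₂ K ((le_max_right _ _).trans hK1)
    rw [Real.dist_eq] at h3
    have hZ : 0 < ρ * a ^ 3 := by positivity
    have hs : 0 < Real.sqrt (ρ * a ^ 3) := Real.sqrt_pos.2 hZ
    have hsp : 0 < Real.sqrt Real.pi := Real.sqrt_pos.2 hpi
    set d : ℝ := (1 - condFraction N (side ρ N) ψ) / Real.sqrt (ρ * a ^ 3) with hd
    have h4 : (1 - condFraction N (side ρ N) ψ)
        / (8 * Real.sqrt (ρ * a ^ 3) / (3 * Real.sqrt Real.pi)) - 1 = (d - c) / c := by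
      rw [hd, hc]
      field_simp
    rw [h4, abs_div, abs_of_pos hc0, div_le_iff₀ hc0]
    calc |d - c| = |(d - boxDepletion K) + (boxDepletion K - c)| := by ring_nf
      _ ≤ |d - boxDepletion K| + |boxDepletion K - c| := abs_add_le _ _
      _ ≤ ε * c := by linarith

end Pool.Agent.Results.MP_4952d6_mp.MesoDepletion
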